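import Mathlib
import Pool.Agent.Lib.MP_42948a_nt.TP.R
import Pool.Agent.Lib.MP_42948a_nt.SH.M
import Pool.Agent.Lib.MP_42948a_nt.EG.Main
import Pool.Agent.Lib.MP_42948a_nt.PO.Z

/-!
# Exactly `K` primes, `K ≥ 3`, every modulus

Three primes: `TP.three_of` with `SH.sharp3` and the endgame. Four primes: `FP.four`. Five primes: `FP.five`. `K > 5` primes: multiply by a power
of a tiny prime (`TP.from_five`).
-/

namespace Pool.Agent.Results.MP_42948a_nt.AllKPrimes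

open Pool.Agent.Lib.MP_42948a_nt

/-- For every `K ≥ 3` and `ε > 0` there are `c > 0` and `d₀` such that for every modulus `d ≥ d₀` and every `a` prime to `d` there is an
`n ≡ a [MOD d]` which is a product of exactly `K` primes, all of them in `(d ^ c, d ^ (1 + ε)]`, with `n ≤ d ^ (E + ε)`, `E = 3` for `K = 3`,
`E = 9 / 4` for `K = 4` and `E = 2` for `K ≥ 5`. -/
theorem result : ∀ K : ℕ, 3 ≤ K → ∀ ε : ℝ, 0 < ε → ∃ c : ℝ, 0 < c ∧ ∃ d₀ : ℕ, ∀ d : ℕ, d₀ ≤ d → ∀ a : ℕ, a.Coprime d →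
    ∃ n : ℕ, n ≡ a [MOD d] ∧ ArithmeticFunction.cardFactors n = K ∧
      (∀ p : ℕ, p.Prime → p ∣ n → (d : ℝ) ^ c < p ∧ (p : ℝ) ≤ (d : ℝ) ^ (1 + ε)) ∧
      (n : ℝ) ≤ (d : ℝ) ^ ((if K = 3 then 3 else if K = 4 then 9 / 4 else 2 : ℝ) + ε) := by
  intro K hK ε hε
  by_cases h3 : K = 3
  · subst h3
    simp only [if_true]
    exact TP.from_three (TP.three_of SH.sharp3 (EG.endgame PO.pos SH.sharp4)) ε hε
  · by_cases h4 : K = 4
    · subst h4
      rw [if_neg (by norm_num), if_pos rfl]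
      exact TP.from_four ε hε
    · rw [if_neg h3, if_neg h4]
      exact TP.from_five K (by omega) ε hε

end Pool.Agent.Results.MP_42948a_nt.AllKPrimes
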