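import Mathlib
import Pool.Agent.Lib.MP_42948a_nt.TV.P9

/-!
# Exactly `K` primes at Chowla's exponent in all classes outside a power saving set
-/

namespace Pool.Agent.Results.MP_42948a_nt.ExactlyKPowerSaving

open Pool.Agent.Lib.MP_42948a_nt

open Classical in
/-- For all `L` and `ε > 0` there are `c > 0` and `d₀` such that for every modulus `d ≥ d₀` all but at most `d ^ (1 - c)` reduced residue
classes `a` mod `d` contain, for every `K` with `11 ≤ K ≤ L`, an `n ≤ d ^ E` which is a product of exactly `K` primes, all of them `> d ^ c`.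
Here `E = 1 + ε` if `d = e r` with `e ≤ d ^ c` and `r` cube-free (for instance if `d` is cube-free, or a prime), and `E = 4 / 3 + ε` for every `d`. -/
theorem result : ∀ (L : ℕ) (ε : ℝ), 0 < ε → ∃ c : ℝ, 0 < c ∧ ∃ d₀ : ℕ, ∀ d : ℕ, d₀ ≤ d → ∀ E : ℝ,
    (E = 4 / 3 + ε ∨ (E = 1 + ε ∧ ∃ e r : ℕ, d = e * r ∧ (e : ℝ) ≤ (d : ℝ) ^ c ∧ ∀ p : ℕ, p.Prime → ¬ p ^ 3 ∣ r)) →
    (((Finset.range d).filter (fun a => a.Coprime d ∧ ∃ K : ℕ, 11 ≤ K ∧ K ≤ L ∧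
      ¬ ∃ n : ℕ, n ≡ a [MOD d] ∧ ArithmeticFunction.cardFactors n = K ∧ (∀ p : ℕ, p.Prime → p ∣ n → (d : ℝ) ^ c < p) ∧
        (n : ℝ) ≤ (d : ℝ) ^ E)).card : ℝ) ≤ (d : ℝ) ^ (1 - c) :=
  fun L ε hε => TV.exactly_Kp L ε hε

end Pool.Agent.Results.MP_42948a_nt.ExactlyKPowerSaving
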