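import Mathlib
import Pool.Agent.Lib.MP_42948a_nt.TB.Final

/-- The number of prime factors modulo an odd prime `m` in residue classes mod `d`, for every large
modulus `d`: for `k ≥ 3` and every nonempty set `J` of residues mod `m`, at least
`min (1, (k + |J| - 1) / m) * φ(d)` reduced classes, up to an error `E`, contain a
positive integer `n ≤ d ^ (k / 3 + ε)`, all of whose prime factors exceed `d ^ δ`, with `Ω(n)` mod
`m` in `J`. Here `E = 0` if `k ≥ 6` and `k + |J| ≥ m + 2`, and `E = d ^ (1 - c)` otherwise. -/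
theorem Pool.Agent.Results.MP_42948a_nt.OmegaModPrimeThird.result :
    ∀ m : ℕ, m.Prime → m ≠ 2 → ∀ ε : ℝ, 0 < ε →
      ∃ δ c : ℝ, 0 < δ ∧ 0 < c ∧ ∃ d₀ : ℕ, ∀ d : ℕ, d₀ ≤ d → ∀ k : ℕ, 3 ≤ k →
        ∀ J : Finset (ZMod m), J.Nonempty → ∃ B : Finset (ZMod d)ˣ,
          min 1 (((k : ℝ) + J.card - 1) / m) * (d.totient : ℝ) -
            (if 6 ≤ k ∧ m + 2 ≤ k + J.card then 0 else (d : ℝ) ^ (1 - c)) ≤ B.card ∧
          ∀ b ∈ B, ∃ n : ℕ, 0 < n ∧ (n : ℝ) ≤ (d : ℝ) ^ ((k : ℝ) / 3 + ε) ∧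
            (n : ZMod d) = (b : ZMod d) ∧
            (∀ p : ℕ, p.Prime → p ∣ n → (d : ℝ) ^ δ < p) ∧
            (ArithmeticFunction.cardFactors n : ZMod m) ∈ J :=
  fun m hm hm2 ε hε => Pool.Agent.Lib.MP_42948a_nt.TB.final_third m hm hm2 ε hε
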