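import Mathlib
import Pool.Agent.Lib.MP_42948a_nt.PS.E4

open Classical in
/-- Both parities at Chowla's exponent `1 + ε` in almost all residue classes of every modulus, with
a power saving exceptional set: for every `ε > 0` there is `c > 0` such that for every large `d`,
for all but at most `d ^ (1 - c)` reduced residue classes mod `d`, both parities `s` occur: the
class contains a positive integer `n ≤ d ^ (1 + ε)`, all of whose prime factors exceed `d ^ c`,
with `Ω(n) ≡ s mod 2` (`Ω` counts prime factors with multiplicity). -/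
theorem Pool.Agent.Results.MP_42948a_nt.ParityPowerSaving.result :
    ∀ ε : ℝ, 0 < ε → ∃ c : ℝ, 0 < c ∧ ∃ d₀ : ℕ, ∀ d : ℕ, d₀ ≤ d →
      (((Finset.range d).filter (fun a : ℕ => a.Coprime d ∧ ∃ s : ℕ, s < 2 ∧
        ¬ ∃ n : ℕ, 0 < n ∧ (n : ℝ) ≤ (d : ℝ) ^ (1 + ε) ∧ n ≡ a [MOD d] ∧
          (∀ p : ℕ, p.Prime → p ∣ n → (d : ℝ) ^ c < p) ∧
          ArithmeticFunction.cardFactors n % 2 = s)).card : ℝ) ≤ (d : ℝ) ^ (1 - c) :=
  fun ε hε => Pool.Agent.Lib.MP_42948a_nt.PS.chowla_parity_power ε hε
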